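import Mathlib
import Pool.Agent.Helper639.PC

set_option autoImplicit false

open Set Topology

namespace Pool.Agent.H774R4

open Pool.Agent.Helper639

def HFD (w : K.Om → K.Om → ℕ) : Prop :=
  ∀ (J : Finset ℕ) (𝒜 : Set (P.Cnd (ℕ × K.Om))), 𝒜.Countable →
      (∀ q ∈ 𝒜, ∀ e ∈ q, e.1.1 ∈ J) → P.PD 𝒜 →
      ∃ γ, ∀ u : ℕ → K.Om, Set.InjOn u J → (∀ j ∈ J, γ < u j) → ∃ q ∈ 𝒜, ∀ e ∈ q, w (u e.1.1) e.1.2 = e.2

theorem seq1 {w : K.Om → K.Om → ℕ} (hw : HFD w) {n : ℕ} (a : ℕ → Fin n → K.Om) (I : Finset (Fin n))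
    (hdis : ∀ k k', k ≠ k' → ∀ i ∉ I, ∀ i' ∉ I, a k i ≠ a k' i') (m : ℕ) (col : Fin m → Fin n → ℕ)
    (hcol : ∀ j k, ∀ i ∉ I, ∀ i' ∉ I, a k i = a k i' → col j i = col j i') :
    ∃ γ : K.Om, ∀ v : Fin m → K.Om, Function.Injective v → (∀ j, γ < v j) →
      ∃ k, ∀ j, ∀ i ∉ I, w (v j) (a k i) = col j i := by
  classical
  let qq : ℕ → P.Cnd (ℕ × K.Om) := fun k =>
    (Finset.univ : Finset (Fin m)).biUnion fun j =>
      (Finset.univ.filter fun i => i ∉ I).image fun i => (((j : ℕ), a k i), col j i)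
  have hqq : ∀ k e, e ∈ qq k ↔ ∃ j : Fin m, ∃ i ∉ I, (((j : ℕ), a k i), col j i) = e := by
    intro k e
    simp [qq]
  have hPD : P.PD (range qq) := by
    intro p hp
    have hfin : {k : ℕ | ∃ e ∈ p, ∃ i ∉ I, a k i = e.1.2}.Finite := by
      have : {k : ℕ | ∃ e ∈ p, ∃ i ∉ I, a k i = e.1.2} =
          ⋃ e ∈ p, {k : ℕ | ∃ i ∉ I, a k i = e.1.2} := by
        ext k; simp
      rw [this]
      refine p.finite_toSet.biUnion fun e _ => ?_
      refine Set.Subsingleton.finite ?_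
      rintro k ⟨i, hi, hk⟩ k' ⟨i', hi', hk'⟩
      by_contra hne
      exact hdis k k' hne i hi i' hi' (hk.trans hk'.symm)
    obtain ⟨k, hk⟩ := hfin.infinite_compl.nonempty
    refine ⟨qq k, mem_range_self k, ?_⟩
    refine P.con_of_union hp ?_ ?_
    · have hx : ∀ z : ℕ × K.Om, ∃ v : ℕ, ∀ (j : Fin m) (i : Fin n), i ∉ I → ((j : ℕ), a k i) = z → v = col j i := by
        intro z
        by_cases h : ∃ (j : Fin m) (i : Fin n), i ∉ I ∧ ((j : ℕ), a k i) = z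
        · obtain ⟨j, i, hi, hz⟩ := h
          refine ⟨col j i, fun j' i' hi' hz' => ?_⟩
          have h2 := hz.trans hz'.symm
          rw [Prod.mk.injEq] at h2
          have h3 : j = j' := Fin.ext h2.1
          subst h3
          exact hcol j k _ hi _ hi' h2.2
        · exact ⟨0, fun j i hi hz => absurd ⟨j, i, hi, hz⟩ h⟩
      choose x hx using hx
      refine ⟨x, fun e he => ?_⟩
      obtain ⟨j, i, hi, rfl⟩ := (hqq k e).mp he
      exact hx _ j i hi rfl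
    · rintro z c b h1 h2
      obtain ⟨j, i, hi, h3⟩ := (hqq k _).mp h2
      exfalso
      apply hk
      refine ⟨_, h1, i, hi, ?_⟩
      have := congrArg (fun t => t.1.2) h3
      exact this
  obtain ⟨γ, hγ⟩ := hw (Finset.range m) (range qq) (countable_range qq) (by
    rintro _ ⟨k, rfl⟩ e he
    obtain ⟨j, i, hi, rfl⟩ := (hqq k e).mp he
    simp) hPD
  refine ⟨γ, fun v hv hvγ => ?_⟩
  obtain ⟨_, ⟨k, rfl⟩, hk⟩ := hγ (fun j => if h : j < m then v ⟨j, h⟩ else γ) (by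
    intro j hj j' hj' h
    have hj1 : j < m := by simpa using hj
    have hj2 : j' < m := by simpa using hj'
    simp only [hj1, hj2, dite_true] at h
    have := hv h
    simpa using this) (by
    intro j hj
    have hj1 : j < m := by simpa using hj
    simp only [hj1, dite_true]
    exact hvγ _)
  refine ⟨k, fun j i hi => ?_⟩
  have := hk (((j : ℕ), a k i), col j i) ((hqq k _).mpr ⟨j, i, hi, rfl⟩)
  simpa using this

theorem seqLemma {w : K.Om → K.Om → ℕ} (hw : HFD w) {n : ℕ} (a : ℕ → Fin n → K.Om) (I : Finset (Fin n))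
    (hdis : ∀ k k', k ≠ k' → ∀ i ∉ I, ∀ i' ∉ I, a k i ≠ a k' i') :
    ∃ γ : K.Om, ∀ (m : ℕ) (col : Fin m → Fin n → ℕ),
      (∀ j k, ∀ i ∉ I, ∀ i' ∉ I, a k i = a k i' → col j i = col j i') →
      ∀ v : Fin m → K.Om, Function.Injective v → (∀ j, γ < v j) →
      ∃ k, ∀ j, ∀ i ∉ I, w (v j) (a k i) = col j i := by
  classical
  have h1 : ∀ z : Σ m : ℕ, (Fin m → Fin n → ℕ), ∃ γ : K.Om,
      (∀ j k, ∀ i ∉ I, ∀ i' ∉ I, a k i = a k i' → z.2 j i = z.2 j i') →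
      ∀ v : Fin z.1 → K.Om, Function.Injective v → (∀ j, γ < v j) →
      ∃ k, ∀ j, ∀ i ∉ I, w (v j) (a k i) = z.2 j i := by
    intro z
    by_cases h : ∀ j k, ∀ i ∉ I, ∀ i' ∉ I, a k i = a k i' → z.2 j i = z.2 j i'
    · obtain ⟨γ, hγ⟩ := seq1 hw a I hdis z.1 z.2 h
      exact ⟨γ, fun _ => hγ⟩
    · obtain ⟨b, -⟩ := Eb.bdd_of_countable K.Om_Iic K.Om_unc (D := (∅ : Set K.Om)) Set.countable_empty
      exact ⟨b, fun h' => absurd h' h⟩
  choose Γ hΓ using h1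
  obtain ⟨γ, hγ⟩ := Eb.bdd_of_countable K.Om_Iic K.Om_unc (D := range Γ) (countable_range Γ)
  refine ⟨γ, fun m col hcol v hv hvγ => ?_⟩
  exact hΓ ⟨m, col⟩ hcol v hv fun j => lt_trans (hγ _ (mem_range_self _)) (hvγ j)

end Pool.Agent.H774R4
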