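import Mathlib
import Pool.Agent.H774R4.Seq

set_option autoImplicit false

open Set Topology

namespace Pool.Agent.H774R4

open Pool.Agent.Helper639

theorem ubd (D : Set K.Om) (hD : D.Countable) : ∃ b, ∀ x ∈ D, x < b :=
  Eb.bdd_of_countable K.Om_Iic K.Om_unc hD

theorem gen1 {w : K.Om → K.Om → ℕ} (hw : HFD w) {n : ℕ} (T : Set K.Om) (α : K.Om → Fin n → K.Om)
    (I : Finset (Fin n)) (ξ : K.Om) :
    ∃ Γ : K.Om, (∃ ζ < Γ, ¬ ∃ δ' ∈ T, ∀ i ∉ I, ζ < α δ' i) ∨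
      ∃ u : ℕ → K.Om, (∀ k, u k ∈ T ∧ u k < Γ ∧ ∀ i ∉ I, ξ < α (u k) i ∧ α (u k) i < Γ) ∧
        ∀ (m : ℕ) (col : Fin m → Fin n → ℕ),
          (∀ j k, ∀ i ∉ I, ∀ i' ∉ I, α (u k) i = α (u k) i' → col j i = col j i') →
          ∀ v : Fin m → K.Om, Function.Injective v → (∀ j, Γ ≤ v j) →
          ∃ k, ∀ j, ∀ i ∉ I, w (v j) (α (u k) i) = col j i := by
  classical
  by_cases h : ∃ ζ, ¬ ∃ δ' ∈ T, ∀ i ∉ I, ζ < α δ' i
  · obtain ⟨ζ, hζ⟩ := h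
    obtain ⟨b, hb⟩ := ubd {ζ} (countable_singleton ζ)
    exact ⟨b, Or.inl ⟨ζ, hb ζ rfl, hζ⟩⟩
  · push Not at h
    have h' : ∀ ζ, ∃ δ' ∈ T, ∀ i ∉ I, ζ < α δ' i := by
      intro ζ
      obtain ⟨δ', h1, h2⟩ := h ζ
      exact ⟨δ', h1, h2⟩
    choose nx hnx1 hnx2 using h'
    have hb : ∀ ζ, ∃ b, ζ < b ∧ ∀ i, α (nx ζ) i < b := by
      intro ζ
      obtain ⟨b, hb⟩ := ubd (insert ζ (range fun i => α (nx ζ) i)) ((countable_range _).insert ζ)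
      exact ⟨b, hb _ (mem_insert _ _), fun i => hb _ (Or.inr (mem_range_self i))⟩
    choose bd hbd1 hbd2 using hb
    let z : ℕ → K.Om := fun k => bd^[k] ξ
    have hz : ∀ k, z (k + 1) = bd (z k) := fun k => Function.iterate_succ_apply' bd k ξ
    have hzm : StrictMono z := strictMono_nat_of_lt_succ fun k => by rw [hz]; exact hbd1 _
    have hz0 : ∀ k, ξ ≤ z k := fun k => hzm.monotone (Nat.zero_le k)
    let u : ℕ → K.Om := fun k => nx (z k)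
    have hlt : ∀ k k', k < k' → ∀ i ∉ I, ∀ i' ∉ I, α (u k) i < α (u k') i' := by
      intro k k' hkk i hi i' hi'
      calc α (u k) i < z (k + 1) := by rw [hz]; exact hbd2 _ _
        _ ≤ z k' := hzm.monotone hkk
        _ < α (u k') i' := hnx2 _ _ hi'
    obtain ⟨γ, hγ⟩ := seqLemma hw (fun k => α (u k)) I (by
      intro k k' hne i hi i' hi'
      rcases lt_or_gt_of_ne hne with h | h
      · exact (hlt k k' h i hi i' hi').ne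
      · exact (hlt k' k h i' hi' i hi).ne')
    obtain ⟨Γ, hΓ⟩ := ubd (insert γ (range u ∪ range fun p : ℕ × Fin n => α (u p.1) p.2))
      (((countable_range _).union (countable_range _)).insert γ)
    refine ⟨Γ, Or.inr ⟨u, fun k => ⟨hnx1 _, hΓ _ (Or.inr (Or.inl (mem_range_self k))), fun i hi =>
      ⟨lt_of_le_of_lt (hz0 k) (hnx2 _ _ hi), hΓ _ (Or.inr (Or.inr ⟨(k, i), rfl⟩))⟩⟩, ?_⟩⟩
    intro m col hcol v hv hvΓ
    exact hγ m col hcol v hv fun j => lt_of_lt_of_le (hΓ _ (mem_insert _ _)) (hvΓ j)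

theorem closeLemma {w : K.Om → K.Om → ℕ} (hw : HFD w) {n : ℕ} {Λ : Type} [Countable Λ]
    (𝒮 : Λ → Set K.Om) (α : K.Om → Fin n → K.Om) :
    ∃ γs : K.Om, (∃ b, b < γs) ∧ ∀ δ, ∀ l, δ ∈ 𝒮 l → ∀ I : Finset (Fin n), (∀ i ∈ I, α δ i < γs) →
      (∀ i ∉ I, γs ≤ α δ i) → ∀ ξ0 < γs, ∀ (m : ℕ) (v : Fin m → K.Om), Function.Injective v →
      (∀ j, γs ≤ v j) → ∀ col : Fin m → Fin n → ℕ,
      (∀ j, ∀ δ' ∈ 𝒮 l, ∀ i ∉ I, ∀ i' ∉ I, α δ' i = α δ' i' → col j i = col j i') →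
      ∃ δ' ∈ 𝒮 l, δ' < γs ∧ (∀ i ∈ I, α δ' i = α δ i) ∧ (∀ i ∉ I, ξ0 < α δ' i ∧ α δ' i < γs) ∧
        ∀ j, ∀ i ∉ I, w (v j) (α δ' i) = col j i := by
  classical
  have h1 := fun (l : Λ) (I : Finset (Fin n)) (ρ : Fin n → K.Om) (ξ : K.Om) =>
    gen1 hw {δ' | δ' ∈ 𝒮 l ∧ ∀ i ∈ I, α δ' i = ρ i} α I ξ
  choose Γ hΓ using h1
  have h2 : ∀ c : K.Om, ∃ y, ∀ (l : Λ) (I : Finset (Fin n)) (ρ : Fin n → K.Om) (ξ : K.Om),
      (∀ i, ρ i ≤ c) → ξ ≤ c → Γ l I ρ ξ < y := by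
    intro c
    have hcn : Countable (Iic c) := (K.Om_Iic c).to_subtype
    obtain ⟨y, hy⟩ := ubd (range fun p : Λ × Finset (Fin n) × (Fin n → Iic c) × Iic c =>
      Γ p.1 p.2.1 (fun i => (p.2.2.1 i : K.Om)) p.2.2.2) (countable_range _)
    exact ⟨y, fun l I ρ ξ hρ hξ => hy _ ⟨(l, I, (fun i => ⟨ρ i, hρ i⟩), ⟨ξ, hξ⟩), rfl⟩⟩
  choose g hg using h2
  obtain ⟨b, -⟩ := ubd ∅ countable_empty
  obtain ⟨γs, hbγ, hcl⟩ := Eb.exists_closed K.Om_Iic K.Om_unc g b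
  refine ⟨γs, ⟨b, hbγ⟩, ?_⟩
  intro δ l hδ I hI1 hI2 ξ0 hξ0 m v hv hvγ col hcol
  let ρ : Fin n → K.Om := fun i => if i ∈ I then α δ i else b
  have hρ : ∀ i, ρ i < γs := by
    intro i
    simp only [ρ]
    split_ifs with h
    · exact hI1 i h
    · exact hbγ
  have hρI : ∀ i ∈ I, ρ i = α δ i := fun i hi => by simp [ρ, hi]
  have hfin := (Set.finite_range ρ).insert ξ0
  obtain ⟨c, hcm, hmax⟩ := Set.exists_max_image _ id hfin ⟨ξ0, Set.mem_insert _ _⟩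
  simp only [id] at hmax
  have hc : c < γs := by
    rcases hcm with rfl | ⟨i, rfl⟩
    · exact hξ0
    · exact hρ i
  have hΓlt : Γ l I ρ ξ0 < γs :=
    lt_trans (hg c l I ρ ξ0 (fun i => hmax _ (Or.inr (mem_range_self i))) (hmax _ (Or.inl rfl))) (hcl c hc)
  rcases hΓ l I ρ ξ0 with ⟨ζ, hζ, hno⟩ | ⟨u, hu, hgen⟩
  · exfalso
    apply hno
    exact ⟨δ, ⟨hδ, fun i hi => (hρI i hi).symm⟩, fun i hi => lt_of_lt_of_le (lt_trans hζ hΓlt) (hI2 i hi)⟩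
  · obtain ⟨k, hk⟩ := hgen m col (fun j k i hi i' hi' h => hcol j (u k) (hu k).1.1 i hi i' hi' h) v hv
      (fun j => hΓlt.le.trans (hvγ j))
    refine ⟨u k, (hu k).1.1, lt_trans (hu k).2.1 hΓlt, fun i hi => ((hu k).1.2 i hi).trans (hρI i hi),
      fun i hi => ⟨((hu k).2.2 i hi).1, lt_trans ((hu k).2.2 i hi).2 hΓlt⟩, hk⟩

end Pool.Agent.H774R4
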