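import Pool.Agent.H774R4.Defs

/-! Task P1 of project H774-CP (written by helper182). -/

set_option autoImplicit false

open Set Topology

namespace Pool.Agent.H774R4

namespace P1W

theorem smul_KS {p : ℝ × ℝ} (hp : p ∈ KS) {t : ℝ} (h0 : 0 ≤ t) (h1 : t ≤ 1) : t • p ∈ KS := by
  rcases hp with ⟨a, b, c⟩ | ⟨a, b, c⟩ | ⟨a, b, c⟩
  · left
    refine ⟨?_, ?_, ?_⟩
    · simpa using mul_nonneg h0 a
    · simpa using mul_le_one₀ h1 a b
    · simp [c]
  · right; left
    refine ⟨?_, ?_, ?_⟩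
    · simp [a]
    · simpa using mul_nonneg h0 b
    · simpa using mul_le_one₀ h1 b c
  · right; right
    refine ⟨?_, ?_, ?_⟩
    · simp [a]
    · simp only [Prod.smul_fst, smul_eq_mul]; nlinarith
    · simp only [Prod.smul_fst, smul_eq_mul]; nlinarith

theorem smul_JJ {p : ℝ × ℝ} {m : Fin 3} (hp : p ∈ JJ m) {t : ℝ} (h0 : 0 ≤ t) : t • p ∈ JJ m := by
  fin_cases m
  · simp only [JJ, Set.mem_setOf_eq, Prod.smul_fst, smul_eq_mul] at hp ⊢; nlinarith
  · simp only [JJ, Set.mem_setOf_eq, Prod.smul_snd, smul_eq_mul] at hp ⊢; nlinarith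
  · simp only [JJ, Set.mem_setOf_eq, Prod.smul_fst, smul_eq_mul] at hp ⊢; nlinarith

theorem zero_KS : (0 : ℝ × ℝ) ∈ KS := by
  left; simp

theorem zero_JJ (m : Fin 3) : (0 : ℝ × ℝ) ∈ JJ m := by
  fin_cases m <;> simp [JJ]

theorem common {p q : ℝ × ℝ} (hp : p ∈ KS) (hq : q ∈ KS) : ∃ m, p ∈ JJ m ∧ q ∈ JJ m := by
  rcases hp with ⟨a, b, c⟩ | ⟨a, b, c⟩ | ⟨a, b, c⟩ <;>
    rcases hq with ⟨a', b', c'⟩ | ⟨a', b', c'⟩ | ⟨a', b', c'⟩
  · exact ⟨1, c.le, c'.le⟩
  · exact ⟨2, a, a'.ge⟩
  · exact ⟨1, c.le, (a'.symm.le.trans c' : q.2 ≤ 0)⟩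
  · exact ⟨2, a.ge, a'⟩
  · exact ⟨0, a.le, a'.le⟩
  · exact ⟨0, a.le, c'⟩
  · exact ⟨1, (a.symm.le.trans c : p.2 ≤ 0), c'.le⟩
  · exact ⟨0, c, a'.le⟩
  · exact ⟨0, c, c'⟩

/-- the points of the tripod outside an open leg -/
def AA (m : Fin 3) : Set KK := {k | (k : ℝ × ℝ) ∈ JJ m}

def zz : KK := ⟨0, zero_KS⟩

theorem AA_preconn (m : Fin 3) : IsPreconnected (AA m) := by
  refine isPreconnected_of_forall zz fun y hy => ?_
  let γ : unitInterval → KK := fun t => ⟨(t : ℝ) • (y : ℝ × ℝ), smul_KS y.2 t.2.1 t.2.2⟩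
  have hγ : Continuous γ := by
    refine Continuous.subtype_mk ?_ _
    exact continuous_subtype_val.smul continuous_const
  refine ⟨Set.range γ, ?_, ⟨0, ?_⟩, ⟨1, ?_⟩, isPreconnected_range hγ⟩
  · rintro _ ⟨t, rfl⟩
    exact smul_JJ (m := m) hy t.2.1
  · apply Subtype.ext; simp [γ, zz]
  · apply Subtype.ext; simp [γ]

theorem extend (m : Fin 3) (p : KK → KK) (hp : ∀ s, p s ∈ AA m) (σ : Finset KK) :
    ∃ κ : C(KK, KK), (∀ x, κ x ∈ AA m) ∧ ∀ s ∈ σ, κ s = p s := by
  classical
  induction σ using Finset.induction_on with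
  | empty => exact ⟨ContinuousMap.const _ zz, fun _ => zero_JJ m, by simp⟩
  | insert s0 σ hs0 ih =>
    obtain ⟨κ, hκ1, hκ2⟩ := ih
    obtain ⟨r, hr, hrs⟩ : ∃ r : ℝ, 0 < r ∧ ∀ s ∈ σ, r ≤ dist s s0 := by
      by_cases hne : σ.Nonempty
      · obtain ⟨s1, hs1, hmin⟩ := Finset.exists_min_image σ (fun s => dist s s0) hne
        refine ⟨dist s1 s0, ?_, hmin⟩
        rw [dist_pos]
        rintro rfl
        exact hs0 hs1
      · rw [Finset.not_nonempty_iff_eq_empty] at hne
        subst hne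
        exact ⟨1, one_pos, by simp⟩
    let a : KK → ℝ := fun x => min 1 (max 0 (2 * dist x s0 / r - 1))
    let b : KK → ℝ := fun x => max 0 (1 - 2 * dist x s0 / r)
    have ha0 : ∀ x, 0 ≤ a x := fun x => le_min zero_le_one (le_max_left _ _)
    have ha1 : ∀ x, a x ≤ 1 := fun x => min_le_left _ _
    have hb0 : ∀ x, 0 ≤ b x := fun x => le_max_left _ _
    have hb1 : ∀ x, b x ≤ 1 := fun x => by
      refine max_le zero_le_one ?_
      have : 0 ≤ 2 * dist x s0 / r := by positivity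
      linarith
    have hab : ∀ x, a x = 0 ∨ b x = 0 := by
      intro x
      rcases le_total (2 * dist x s0 / r) 1 with h | h
      · left
        have : max 0 (2 * dist x s0 / r - 1) = 0 := max_eq_left (by linarith)
        simp only [a, this]
        exact min_eq_right zero_le_one
      · right
        exact max_eq_left (by linarith)
    have hval : ∀ x, (a x • (κ x : ℝ × ℝ) + b x • (p s0 : ℝ × ℝ)) ∈ KS ∧
        (a x • (κ x : ℝ × ℝ) + b x • (p s0 : ℝ × ℝ)) ∈ JJ m := by
      intro x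
      rcases hab x with h | h
      · rw [h, zero_smul, zero_add]
        exact ⟨smul_KS (p s0).2 (hb0 x) (hb1 x), smul_JJ (hp s0) (hb0 x)⟩
      · rw [h, zero_smul, add_zero]
        exact ⟨smul_KS (κ x).2 (ha0 x) (ha1 x), smul_JJ (hκ1 x) (ha0 x)⟩
    have hca : Continuous a := by
      refine continuous_const.min (continuous_const.max ?_)
      exact ((continuous_const.mul (continuous_id.dist continuous_const)).div_const _).sub
        continuous_const
    have hcb : Continuous b := by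
      refine continuous_const.max ?_
      exact continuous_const.sub
        ((continuous_const.mul (continuous_id.dist continuous_const)).div_const _)
    have hcont : Continuous fun x : KK =>
        (⟨a x • (κ x : ℝ × ℝ) + b x • (p s0 : ℝ × ℝ), (hval x).1⟩ : KK) := by
      refine Continuous.subtype_mk ?_ _
      exact (hca.smul (continuous_subtype_val.comp κ.continuous)).add
        (hcb.smul continuous_const)
    refine ⟨⟨_, hcont⟩, fun x => (hval x).2, ?_⟩
    intro s hs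
    apply Subtype.ext
    show a s • (κ s : ℝ × ℝ) + b s • (p s0 : ℝ × ℝ) = (p s : ℝ × ℝ)
    rcases Finset.mem_insert.1 hs with rfl | hs
    · have h1 : a s = 0 := by
        simp [a]
      have h2 : b s = 1 := by
        simp [b]
      rw [h1, h2]; simp
    · have hd := hrs s hs
      have h3 : 2 ≤ 2 * dist s s0 / r := by
        rw [le_div_iff₀ hr]; linarith
      have h1 : a s = 1 := by
        have : max 0 (2 * dist s s0 / r - 1) = 2 * dist s s0 / r - 1 :=
          max_eq_right (by linarith)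
        simp only [a, this]
        exact min_eq_left (by linarith)
      have h2 : b s = 0 := max_eq_left (by linarith)
      rw [h1, h2, hκ2 s hs]; simp

end P1W

open P1W in
theorem taskP1 : TaskP1 := by
  intro φ σ
  by_cases hne : σ.Nonempty
  · obtain ⟨M, hM, hmax⟩ := Finset.exists_max_image σ φ hne
    obtain ⟨μ, hμ, hmin⟩ := Finset.exists_min_image σ φ hne
    obtain ⟨m, hm1, hm2⟩ := common M.2 μ.2
    have hivt := (AA_preconn m).intermediate_value (a := μ) (b := M) hm2 hm1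
      φ.continuous.continuousOn
    have hex : ∀ s : KK, ∃ q : KK, q ∈ AA m ∧ (s ∈ σ → φ q = φ s) := by
      intro s
      by_cases hs : s ∈ σ
      · obtain ⟨q, hq1, hq2⟩ := hivt ⟨hmin s hs, hmax s hs⟩
        exact ⟨q, hq1, fun _ => hq2⟩
      · exact ⟨zz, zero_JJ m, fun h => absurd h hs⟩
    choose p hp1 hp2 using hex
    obtain ⟨κ, hκ1, hκ2⟩ := extend m p hp1 σ
    refine ⟨κ, ⟨m, hκ1⟩, ?_⟩
    intro s hs
    rw [hκ2 s hs]
    exact hp2 s hs
  · rw [Finset.not_nonempty_iff_eq_empty] at hne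
    subst hne
    exact ⟨ContinuousMap.const _ zz, ⟨0, fun _ => zero_JJ 0⟩, by simp⟩

end Pool.Agent.H774R4
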