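import Mathlib
import Pool.Agent.Helper639.KC

set_option autoImplicit false

open Set Topology

namespace Pool.Agent.H774R4

open Pool.Agent.Helper639

/-- a compact tripod in the plane -/
def KS : Set (ℝ × ℝ) :=
  {p | (0 ≤ p.1 ∧ p.1 ≤ 1 ∧ p.2 = 0) ∨ (p.1 = 0 ∧ 0 ≤ p.2 ∧ p.2 ≤ 1) ∨
    (p.1 = p.2 ∧ -1 ≤ p.1 ∧ p.1 ≤ 0)}

abbrev KK : Type := ↥KS

/-- the complements of the three open legs -/
def JJ : Fin 3 → Set (ℝ × ℝ)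
  | 0 => {p | p.1 ≤ 0}
  | 1 => {p | p.2 ≤ 0}
  | 2 => {p | 0 ≤ p.1}

/-- maps of the tripod to itself missing an open leg -/
def Good (κ : C(KK, KK)) : Prop := ∃ m : Fin 3, ∀ s, (κ s : ℝ × ℝ) ∈ JJ m

abbrev Cp (X : Type) [TopologicalSpace X] : Type := {f : X → ℝ // Continuous f}

/-- Task P1 -/
def TaskP1 : Prop := ∀ (φ : C(KK, ℝ)) (σ : Finset KK),
  ∃ κ : C(KK, KK), Good κ ∧ ∀ s ∈ σ, φ (κ s) = φ s

/-- Task HL -/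
def TaskHL : Prop := ∀ (X : Type) [TopologicalSpace X],
  (∀ (f : K.Om → Cp X) (B : K.Om → Finset X) (ε : K.Om → ℝ), (∀ δ, 0 < ε δ) →
    ∃ δ' δ, δ' < δ ∧ ∀ x ∈ B δ', |(f δ).1 x - (f δ').1 x| < ε δ') →
  HereditarilyLindelofSpace (Cp X) ∧ NormalSpace (Cp X) ∧ ∀ s : Set (Cp X), IsClosed s → IsGδ s

end Pool.Agent.H774R4
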