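import Mathlib
import Pool.Agent.H774R4.Defs

set_option autoImplicit false

open Set Topology

namespace Pool.Agent.H774R4

open Pool.Agent.Helper639

def zK : KK := ⟨(0, 0), Or.inl ⟨le_rfl, zero_le_one, rfl⟩⟩

variable (w : K.Om → K.Om → ℕ) (q : ℕ → C(KK, KK)) (r : K.Om → ℝ)

/-- the space: the union of `ω₁` tripods -/
def Sp (_w : K.Om → K.Om → ℕ) (_q : ℕ → C(KK, KK)) (_r : K.Om → ℝ) : Type := K.Om × KK

open Classical in
/-- the coordinate functions on a fixed tripod -/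
noncomputable def EC (ξ α : K.Om) : C(KK, KK) :=
  if α = ξ then ContinuousMap.id KK else if ξ < α then ContinuousMap.const KK zK else q (w ξ α)

/-- the coordinate functions -/
noncomputable def E (ξ : K.Om) (x : Sp w q r) : KK := EC w q ξ x.1 x.2

noncomputable def ev (x : Sp w q r) : (K.Om → KK) × ℝ := (fun ξ => E w q r ξ x, r x.1)

noncomputable instance : TopologicalSpace (Sp w q r) := TopologicalSpace.induced (ev w q r) inferInstance

theorem ev_inducing : IsInducing (ev w q r) := ⟨rfl⟩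

theorem continuous_E (ξ : K.Om) : Continuous (E w q r ξ) :=
  (continuous_apply ξ).comp (continuous_fst.comp (ev_inducing w q r).continuous)

theorem EC_self (ξ : K.Om) (s : KK) : EC w q ξ ξ s = s := by simp [EC]

theorem EC_lt {ξ α : K.Om} (h : ξ < α) (s : KK) : EC w q ξ α s = zK := by
  simp [EC, h, h.ne']

theorem EC_gt {ξ α : K.Om} (h : α < ξ) (s : KK) : EC w q ξ α s = q (w ξ α) s := by
  simp [EC, h.ne, h.not_gt]

theorem EC_good (hq : ∀ n, Good (q n)) {ξ α : K.Om} (h : α ≠ ξ) : Good (EC w q ξ α) := by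
  unfold EC
  rw [if_neg h]
  split_ifs with h1
  · refine ⟨0, fun s => ?_⟩
    simp [JJ, zK]
  · exact hq _

/-- the inclusion of a tripod -/
def inc (α : K.Om) (s : KK) : Sp w q r := (α, s)

theorem continuous_inc (α : K.Om) : Continuous (inc w q r α) := by
  rw [(ev_inducing w q r).continuous_iff]
  refine Continuous.prodMk (continuous_pi fun ξ => ?_) (continuous_const : Continuous fun _ : KK => r α)
  exact (EC w q ξ α).continuous

theorem ev_injective (hr : Function.Injective r) : Function.Injective (ev w q r) := by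
  intro x y h
  have h1 : x.1 = y.1 := hr (congrArg Prod.snd h)
  have h2 : E w q r x.1 x = E w q r x.1 y := congrFun (congrArg Prod.fst h) x.1
  obtain ⟨a, s⟩ := x
  obtain ⟨b, t⟩ := y
  simp only at h1
  subst h1
  simp only [E, EC_self] at h2
  rw [h2]

theorem t35 (hr : Function.Injective r) : T35Space (Sp w q r) :=
  (Topology.IsEmbedding.mk (ev_inducing w q r) (ev_injective w q r hr)).t35Space

/-- basic neighbourhoods -/
theorem basic {U : Set (Sp w q r)} (hU : IsOpen U) {x : Sp w q r} (hx : x ∈ U) :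
    ∃ (Ξ : Finset K.Om) (η : ℝ), 0 < η ∧ ∀ y : Sp w q r,
      (∀ ξ ∈ Ξ, dist (E w q r ξ y) (E w q r ξ x) < η) → |r y.1 - r x.1| < η → y ∈ U := by
  obtain ⟨V, hV, rfl⟩ := isOpen_induced_iff.mp hU
  have hV' : V ∈ 𝓝 (ev w q r x) := hV.mem_nhds hx
  rw [show ev w q r x = ((ev w q r x).1, (ev w q r x).2) from rfl, nhds_prod_eq, Filter.mem_prod_iff] at hV'
  obtain ⟨A, hA, B, hB, hAB⟩ := hV'
  obtain ⟨A', hA', hAo, hxA⟩ := mem_nhds_iff.mp hA
  obtain ⟨Ξ, u, hu, huA⟩ := isOpen_pi_iff.mp hAo _ hxA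
  obtain ⟨η₀, hη₀, hB'⟩ := Metric.mem_nhds_iff.mp hB
  have h1 : ∀ ξ : K.Om, ∃ η > 0, ξ ∈ Ξ → ∀ z, dist z (E w q r ξ x) < η → z ∈ u ξ := by
    intro ξ
    by_cases h : ξ ∈ Ξ
    · obtain ⟨η, hη, hb⟩ := Metric.isOpen_iff.mp (hu ξ h).1 _ (hu ξ h).2
      exact ⟨η, hη, fun _ z hz => hb hz⟩
    · exact ⟨1, one_pos, fun h' => absurd h' h⟩
  choose η hη hη2 using h1
  have h2 : ∃ η₁ > 0, ∀ ξ ∈ Ξ, η₁ ≤ η ξ := by
    by_cases hne : Ξ.Nonempty
    · obtain ⟨ξ, hξ, hmin⟩ := Ξ.exists_min_image η hne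
      exact ⟨η ξ, hη ξ, hmin⟩
    · rw [Finset.not_nonempty_iff_eq_empty] at hne
      subst hne
      exact ⟨1, one_pos, fun ξ h => absurd h (Finset.notMem_empty _)⟩
  obtain ⟨η₁, hη₁, hle⟩ := h2
  refine ⟨Ξ, min η₀ η₁, lt_min hη₀ hη₁, fun y hy1 hy2 => ?_⟩
  refine hAB ⟨hA' (huA fun ξ hξ => ?_), hB' ?_⟩
  · exact hη2 ξ hξ _ (lt_of_lt_of_le (hy1 ξ hξ) ((min_le_right _ _).trans (hle ξ hξ)))
  · rw [Metric.mem_ball, Real.dist_eq]
    exact lt_of_lt_of_le hy2 (min_le_left _ _)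

end Pool.Agent.H774R4
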