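import Mathlib
import Pool.Agent.H774R4.Cl
import Pool.Agent.H774R4.Sp
import Pool.Agent.H774R4.P1

set_option autoImplicit false

open Set Topology Filter

namespace Pool.Agent.H774R4

open Pool.Agent.Helper639

theorem KS_compact : IsCompact KS := by
  refine Metric.isCompact_of_isClosed_isBounded ?_ ?_
  · refine IsClosed.union ?_ (IsClosed.union ?_ ?_)
    · exact ((isClosed_le continuous_const continuous_fst).inter
        ((isClosed_le continuous_fst continuous_const).inter
          (isClosed_eq continuous_snd continuous_const)))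
    · exact ((isClosed_eq continuous_fst continuous_const).inter
        ((isClosed_le continuous_const continuous_snd).inter
          (isClosed_le continuous_snd continuous_const)))
    · exact ((isClosed_eq continuous_fst continuous_snd).inter
        ((isClosed_le continuous_const continuous_fst).inter
          (isClosed_le continuous_fst continuous_const)))
  · refine (Metric.isBounded_closedBall (x := (0 : ℝ × ℝ)) (r := 1)).subset ?_
    rintro ⟨a, b⟩ h
    rw [mem_closedBall_zero_iff, Prod.norm_def, Real.norm_eq_abs, Real.norm_eq_abs]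
    simp only [KS, mem_ofPred_eq] at h
    refine max_le (abs_le.mpr ?_) (abs_le.mpr ?_) <;> constructor <;> rcases h with h | h | h <;> linarith [h.1, h.2.1, h.2.2]

instance : CompactSpace KK := isCompact_iff_compactSpace.mp KS_compact

theorem Good.comp {κ κ' : C(KK, KK)} (h : Good κ) : Good (κ.comp κ') := by
  obtain ⟨m, hm⟩ := h
  exact ⟨m, fun s => hm (κ' s)⟩

variable {w : K.Om → K.Om → ℕ} {q : ℕ → C(KK, KK)} {r : K.Om → ℝ}

def PhF (f : K.Om → Cp (Sp w q r)) (δ α : K.Om) : C(KK, ℝ) :=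
  ⟨fun s => (f δ).1 (inc w q r α s), (f δ).2.comp (continuous_inc w q r α)⟩

theorem core1 (hw : HFD w) (hq : ∀ n, Good (q n))
    (hqd : ∀ κ : C(KK, KK), Good κ → ∀ η > 0, ∃ n, ∀ s, dist (q n s) (κ s) < η)
    {n : ℕ} (S : Set K.Om) (hS : ¬ S.Countable) (x : K.Om → Fin n → Sp w q r)
    (f : K.Om → Cp (Sp w q r)) (ε : ℝ) (hε : 0 < ε) :
    ∃ δ' ∈ S, ∃ δ ∈ S, δ' < δ ∧ ∀ i, |(f δ).1 (x δ' i) - (f δ').1 (x δ' i)| < ε := by
  classical
  let Pm : Type := (Fin n → C(KK, ℝ)) × (Fin n → KK) × (Fin n → ℝ) × (Fin n → Fin n → Bool)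
  let pm : K.Om → Pm := fun δ => (fun i => PhF f δ (x δ i).1, fun i => (x δ i).2,
    fun i => r (x δ i).1, fun i j => decide ((x δ i).1 = (x δ j).1))
  let Λ : Type := ↥(TopologicalSpace.countableBasis Pm)
  have hΛ : Countable Λ := (TopologicalSpace.countable_countableBasis Pm).to_subtype
  obtain ⟨γs, ⟨b, hb⟩, hcl⟩ := closeLemma hw (Λ := Λ) (fun V => {δ | δ ∈ S ∧ pm δ ∈ V.1})
    (fun δ i => (x δ i).1)
  -- choose a large index
  have hδ : ∃ δ ∈ S, γs < δ := by
    by_contra hcon
    push Not at hcon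
    exact hS ((K.Om_Iic γs).mono fun δ hδ => hcon δ hδ)
  obtain ⟨δ, hδS, hδγ⟩ := hδ
  let α : Fin n → K.Om := fun i => (x δ i).1
  let I : Finset (Fin n) := Finset.univ.filter fun i => α i < γs
  have hI1 : ∀ i ∈ I, α i < γs := fun i hi => (Finset.mem_filter.mp hi).2
  have hI2 : ∀ i ∉ I, γs ≤ α i := fun i hi => by
    by_contra h
    exact hi (Finset.mem_filter.mpr ⟨Finset.mem_univ _, not_le.mp h⟩)
  -- the maps kappa
  have hκ := fun (a : K.Om) => taskP1 (PhF f δ a)
    ((Finset.univ.filter fun i : Fin n => α i = a).image fun i => (x δ i).2)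
  choose κ hκ1 hκ2 using hκ
  have hκ3 : ∀ i, PhF f δ (α i) (κ (α i) (x δ i).2) = PhF f δ (α i) (x δ i).2 := by
    intro i
    exact hκ2 _ _ (Finset.mem_image.mpr ⟨i, Finset.mem_filter.mpr ⟨Finset.mem_univ _, rfl⟩, rfl⟩)
  -- neighbourhoods
  let y : Fin n → Sp w q r := fun i => inc w q r (α i) (κ (α i) (x δ i).2)
  have hε4 : 0 < ε / 4 := by linarith
  have hnb : ∀ i, ∃ (Ξ : Finset K.Om) (η : ℝ), 0 < η ∧ ∀ z : Sp w q r,
      (∀ ξ ∈ Ξ, dist (E w q r ξ z) (E w q r ξ (y i)) < η) → |r z.1 - r (y i).1| < η →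
        |(f δ).1 z - (f δ).1 (y i)| < ε / 4 := by
    intro i
    have hop : IsOpen {z : Sp w q r | |(f δ).1 z - (f δ).1 (y i)| < ε / 4} :=
      isOpen_lt ((f δ).2.sub continuous_const).abs continuous_const
    exact basic w q r hop (by simpa using hε4)
  choose Ξ η hη hnb using hnb
  have hη0 : ∃ η0 > 0, ∀ i, η0 ≤ η i := by
    by_cases hne : (Finset.univ : Finset (Fin n)).Nonempty
    · obtain ⟨i, -, hmin⟩ := Finset.exists_min_image _ η hne
      exact ⟨η i, hη i, fun j => hmin j (Finset.mem_univ _)⟩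
    · refine ⟨1, one_pos, fun i => absurd ⟨i, Finset.mem_univ _⟩ hne⟩
  obtain ⟨η0, hη0, hηle⟩ := hη0
  have hη3 : 0 < η0 / 3 := by linarith
  let ΞΞ : Finset K.Om := Finset.univ.biUnion Ξ
  let TT : K.Om → K.Om → C(KK, KK) := fun ξ a => (EC w q ξ a).comp (κ a)
  have hTT : ∀ ξ a, Good (TT ξ a) := by
    intro ξ a
    by_cases h : a = ξ
    · subst h
      obtain ⟨m, hm⟩ := hκ1 a
      refine ⟨m, fun s => ?_⟩
      change ((EC w q a a (κ a s) : KK) : ℝ × ℝ) ∈ JJ m
      rw [EC_self]
      exact hm s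
    · exact (EC_good w q hq h).comp
  have hcol := fun ξ a => hqd (TT ξ a) (hTT ξ a) (η0 / 3) hη3
  choose cl hcl2 using hcol
  -- the neighbourhood of the parameter
  have hW : ∀ᶠ p : Pm in 𝓝 (pm δ),
      (∀ i, ∀ s, |p.1 i s - PhF f δ (α i) s| < ε / 4) ∧
      (∀ i, |PhF f δ (α i) (p.2.1 i) - PhF f δ (α i) (x δ i).2| < ε / 4) ∧
      (∀ i, ∀ ξ ∈ ΞΞ, dist (TT ξ (α i) (p.2.1 i)) (TT ξ (α i) (x δ i).2) < η0 / 3) ∧
      (∀ i, |p.2.2.1 i - r (α i)| < η0) ∧
      (∀ i j, p.2.2.2 i j = decide (α i = α j)) := by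
    refine Filter.Eventually.and ?_ (Filter.Eventually.and ?_ (Filter.Eventually.and ?_
      (Filter.Eventually.and ?_ ?_)))
    · rw [eventually_all]
      intro i
      have hc : Continuous fun p : Pm => p.1 i := (continuous_apply i).comp continuous_fst
      have h1 : ∀ᶠ g : C(KK, ℝ) in 𝓝 (PhF f δ (α i)), dist g (PhF f δ (α i)) < ε / 4 :=
        Metric.ball_mem_nhds _ hε4
      have h2 := (hc.continuousAt (x := pm δ)).eventually h1
      filter_upwards [h2] with p hp s
      have := ContinuousMap.dist_apply_le_dist (f := p.1 i) (g := PhF f δ (α i)) s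
      rw [Real.dist_eq] at this
      exact lt_of_le_of_lt this hp
    · rw [eventually_all]
      intro i
      have hc : Continuous fun p : Pm => |PhF f δ (α i) (p.2.1 i) - PhF f δ (α i) (x δ i).2| :=
        (((PhF f δ (α i)).continuous.comp ((continuous_apply i).comp
          (continuous_fst.comp continuous_snd))).sub continuous_const).abs
      refine (hc.continuousAt (x := pm δ)).eventually_lt_const ?_
      simpa [pm] using hε4
    · rw [eventually_all]
      intro i
      rw [eventually_all_finset]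
      intro ξ _
      have hc : Continuous fun p : Pm => dist (TT ξ (α i) (p.2.1 i)) (TT ξ (α i) (x δ i).2) :=
        (((TT ξ (α i)).continuous.comp ((continuous_apply i).comp
          (continuous_fst.comp continuous_snd))).dist continuous_const)
      refine (hc.continuousAt (x := pm δ)).eventually_lt_const ?_
      simpa [pm] using hη3
    · rw [eventually_all]
      intro i
      have hc : Continuous fun p : Pm => |p.2.2.1 i - r (α i)| :=
        (((continuous_apply i).comp (continuous_fst.comp (continuous_snd.comp continuous_snd))).sub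
          continuous_const).abs
      refine (hc.continuousAt (x := pm δ)).eventually_lt_const ?_
      simpa [pm, α] using hη0
    · rw [eventually_all]
      intro i
      rw [eventually_all]
      intro j
      have hc : Continuous fun p : Pm => p.2.2.2 i j :=
        (continuous_apply j).comp ((continuous_apply i).comp
          (continuous_snd.comp (continuous_snd.comp continuous_snd)))
      have h1 : ∀ᶠ c : Bool in 𝓝 (decide (α i = α j)), c = decide (α i = α j) := by
        rw [nhds_discrete]; exact rfl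
      exact (hc.continuousAt (x := pm δ)).eventually h1
  obtain ⟨V, hV, hδV, hVW⟩ := (TopologicalSpace.isBasis_countableBasis Pm).mem_nhds_iff.mp hW
  -- the bound below
  have hξ0 : ∃ ξ0 < γs, ∀ ξ ∈ ΞΞ, ξ < γs → ξ ≤ ξ0 := by
    have hfin := ((ΞΞ.filter fun ξ => ξ < γs).finite_toSet).insert b
    obtain ⟨c, hcm, hmax⟩ := Set.exists_max_image _ id hfin ⟨b, Set.mem_insert _ _⟩
    simp only [id] at hmax
    refine ⟨c, ?_, fun ξ hξ h => hmax _ (Or.inr (by simpa using ⟨hξ, h⟩))⟩
    rcases hcm with rfl | hc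
    · exact hb
    · have := Finset.mem_coe.mp hc
      exact (Finset.mem_filter.mp this).2
  obtain ⟨ξ0, hξ0γ, hξ0⟩ := hξ0
  let Ξ' : Finset K.Om := ΞΞ.filter fun ξ => γs ≤ ξ
  let v : Fin Ξ'.card → K.Om := fun j => (Ξ'.equivFin.symm j : K.Om)
  have hvinj : Function.Injective v := fun j j' h => Ξ'.equivFin.symm.injective (Subtype.ext h)
  have hvmem : ∀ j, v j ∈ Ξ' := fun j => (Ξ'.equivFin.symm j).2
  have hvsurj : ∀ ξ ∈ Ξ', ∃ j, v j = ξ := fun ξ hξ => ⟨Ξ'.equivFin ⟨ξ, hξ⟩, by simp [v]⟩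
  obtain ⟨δ', hδ'S, hδ'γ, hroot, hnon, hcolor⟩ := hcl δ ⟨V, hV⟩ ⟨hδS, hδV⟩ I hI1 hI2 ξ0 hξ0γ
    Ξ'.card v hvinj (fun j => (Finset.mem_filter.mp (hvmem j)).2) (fun j i => cl (v j) (α i)) (by
      intro j δ1 hδ1 i _ i' _ h
      have h1 := (hVW hδ1.2).2.2.2.2 i i'
      simp only [pm] at h1
      rw [decide_eq_decide] at h1
      rw [h1.mp h])
  have hP := hVW hδ'S.2
  obtain ⟨hP1, hP2, hP3, hP4, hP5⟩ := hP
  refine ⟨δ', hδ'S.1, δ, hδS, hδ'γ.trans hδγ, fun i => ?_⟩
  by_cases hi : i ∈ I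
  · have e1 : (x δ' i).1 = α i := hroot i hi
    have h1 := hP1 i (x δ' i).2
    simp only [pm] at h1
    rw [e1] at h1
    have e2 : x δ' i = inc w q r (α i) (x δ' i).2 := by
      rw [← e1]; rfl
    rw [e2]
    change |PhF f δ (α i) (x δ' i).2 - PhF f δ' (α i) (x δ' i).2| < ε
    rw [abs_sub_comm]
    linarith
  · have hlt := (hnon i hi).2
    have hgt := (hnon i hi).1
    have hγα := hI2 i hi
    -- the estimate for the continuity of f δ
    have hE : ∀ ξ ∈ Ξ i, dist (E w q r ξ (x δ' i)) (E w q r ξ (y i)) < η i := by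
      intro ξ hξ
      have hξm : ξ ∈ ΞΞ := Finset.mem_biUnion.mpr ⟨i, Finset.mem_univ _, hξ⟩
      refine lt_of_lt_of_le ?_ (hηle i)
      by_cases hξγ : ξ < γs
      · have h1 : E w q r ξ (x δ' i) = zK := EC_lt w q (lt_of_le_of_lt (hξ0 ξ hξm hξγ) hgt) _
        have h2 : E w q r ξ (y i) = zK := EC_lt w q (lt_of_lt_of_le hξγ hγα) _
        rw [h1, h2, dist_self]
        exact hη0
      · have hξγ' : γs ≤ ξ := not_lt.mp hξγ
        obtain ⟨j, hj⟩ := hvsurj ξ (Finset.mem_filter.mpr ⟨hξm, hξγ'⟩)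
        have h1 : E w q r ξ (x δ' i) = q (w ξ (x δ' i).1) (x δ' i).2 :=
          EC_gt w q (lt_of_lt_of_le hlt hξγ') _
        have h2 : w ξ (x δ' i).1 = cl ξ (α i) := by
          rw [← hj]; exact hcolor j i hi
        rw [h1, h2]
        have h3 := hcl2 ξ (α i) (x δ' i).2
        have h4 := hP3 i ξ hξm
        simp only [pm] at h4
        have h5 : E w q r ξ (y i) = TT ξ (α i) (x δ i).2 := rfl
        rw [h5]
        have := dist_triangle (q (cl ξ (α i)) (x δ' i).2) (TT ξ (α i) (x δ' i).2) (TT ξ (α i) (x δ i).2)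
        linarith
    have hR : |r (x δ' i).1 - r (y i).1| < η i := by
      have := hP4 i
      simp only [pm] at this
      exact lt_of_lt_of_le this (hηle i)
    have h1 := hnb i (x δ' i) hE hR
    have h2 : (f δ).1 (y i) = PhF f δ (α i) (x δ i).2 := hκ3 i
    have h3 := hP2 i
    simp only [pm] at h3
    have h4 := hP1 i (x δ' i).2
    simp only [pm] at h4
    have h5 : PhF f δ' (x δ' i).1 (x δ' i).2 = (f δ').1 (x δ' i) := rfl
    rw [h5] at h4
    rw [h2] at h1
    rw [abs_lt] at h1 h3 h4 ⊢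
    constructor <;> linarith [h1.1, h1.2, h3.1, h3.2, h4.1, h4.2]

end Pool.Agent.H774R4
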