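import Pool.Agent.H774R4.Defs

set_option autoImplicit false

/-! Task HL: hereditary Lindelöf property from the chain condition. -/

open Set Topology

namespace Pool.Agent.H774R4

open Pool.Agent.Helper639

namespace HLaux

theorem exists_eps {X : Type} (I : Finset X) (e : X → ℝ) (he : ∀ i ∈ I, 0 < e i) :
    ∃ ε : ℝ, 0 < ε ∧ ∀ i ∈ I, ε ≤ e i := by
  classical
  induction I using Finset.induction_on with
  | empty => exact ⟨1, one_pos, fun i hi => absurd hi (Finset.notMem_empty i)⟩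
  | insert a I _ ih =>
    obtain ⟨ε, hε, h⟩ := ih fun i hi => he i (Finset.mem_insert_of_mem hi)
    refine ⟨min ε (e a), lt_min hε (he a (Finset.mem_insert_self a I)), fun i hi => ?_⟩
    rcases Finset.mem_insert.mp hi with rfl | hi
    · exact min_le_right _ _
    · exact (min_le_left _ _).trans (h i hi)

theorem basic_nhd {X : Type} [TopologicalSpace X] {U : Set (Cp X)} (hU : IsOpen U) {h : Cp X}
    (hh : h ∈ U) : ∃ (B : Finset X) (ε : ℝ), 0 < ε ∧
      ∀ g : Cp X, (∀ x ∈ B, |g.1 x - h.1 x| < ε) → g ∈ U := by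
  obtain ⟨V, hV, rfl⟩ := isOpen_induced_iff.mp hU
  obtain ⟨I, u, hu, hsub⟩ := isOpen_pi_iff.mp hV h.1 hh
  have hex : ∀ i : X, ∃ e : ℝ, (i ∈ I → 0 < e ∧ Metric.ball (h.1 i) e ⊆ u i) := by
    intro i
    by_cases hi : i ∈ I
    · obtain ⟨e, he, hb⟩ := Metric.isOpen_iff.mp (hu i hi).1 (h.1 i) (hu i hi).2
      exact ⟨e, fun _ => ⟨he, hb⟩⟩
    · exact ⟨1, fun hi' => absurd hi' hi⟩
  choose e he using hex
  obtain ⟨ε, hε, hle⟩ := exists_eps I e fun i hi => (he i hi).1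
  refine ⟨I, ε, hε, fun g hg => hsub ?_⟩
  intro i hi
  apply (he i hi).2
  rw [Metric.mem_ball, Real.dist_eq]
  exact lt_of_lt_of_le (hg i hi) (hle i hi)

theorem lindelof {X : Type} [TopologicalSpace X]
    (hyp : ∀ (f : K.Om → Cp X) (B : K.Om → Finset X) (ε : K.Om → ℝ), (∀ δ, 0 < ε δ) →
      ∃ δ' δ, δ' < δ ∧ ∀ x ∈ B δ', |(f δ).1 x - (f δ').1 x| < ε δ') (s : Set (Cp X)) :
    IsLindelof s := by
  apply isLindelof_of_countable_subcover
  intro ι U hU hs
  by_contra hcon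
  push Not at hcon
  have hne : s.Nonempty := by
    by_contra he
    rw [not_nonempty_iff_eq_empty] at he
    exact hcon ∅ countable_empty (by rw [he]; exact empty_subset _)
  obtain ⟨h₀, hh₀⟩ := hne
  obtain ⟨i₀, _⟩ := mem_iUnion.mp (hs hh₀)
  have hdata : ∀ h : Cp X, ∃ (i : ι) (B : Finset X) (ε : ℝ), 0 < ε ∧
      (h ∈ s → ∀ g : Cp X, (∀ x ∈ B, |g.1 x - h.1 x| < ε) → g ∈ U i) := by
    intro h
    by_cases hh : h ∈ s
    · obtain ⟨i, hi⟩ := mem_iUnion.mp (hs hh)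
      obtain ⟨B, ε, hε, hB⟩ := basic_nhd (hU i) hi
      exact ⟨i, B, ε, hε, fun _ => hB⟩
    · exact ⟨i₀, ∅, 1, one_pos, fun hh' => absurd hh' hh⟩
  choose i B ε hε hB using hdata
  have : Nonempty (Cp X) := ⟨h₀⟩
  obtain ⟨G, hG⟩ := K.exists_rec (Ω := K.Om) (X := Cp X)
    (fun δ G x => x ∈ s ∧ ∀ β < δ, x ∉ U (i (G β)))
    (by
      intro α g
      have hc : ((fun β => i (g β)) '' Iio α).Countable :=
        ((K.Om_Iic α).mono Iio_subset_Iic_self).image _
      obtain ⟨x, hx, hx'⟩ := not_subset.mp (hcon _ hc)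
      refine ⟨x, hx, fun β hβ hxU => hx' ?_⟩
      simp only [mem_iUnion]
      exact ⟨i (g β), ⟨β, hβ, rfl⟩, hxU⟩)
    (by
      intro α g g' x hgg hx
      refine ⟨hx.1, fun β hβ => ?_⟩
      rw [← hgg β hβ]
      exact hx.2 β hβ)
  obtain ⟨δ', δ, hlt, hd⟩ := hyp G (fun δ => B (G δ)) (fun δ => ε (G δ)) (fun δ => hε _)
  exact (hG δ).2 δ' hlt (hB (G δ') (hG δ').1 (G δ) hd)

end HLaux

open HLaux

theorem taskHL : TaskHL := by
  intro X _ hyp
  have hHL : HereditarilyLindelofSpace (Cp X) := ⟨fun s _ => lindelof hyp s⟩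
  refine ⟨hHL, inferInstance, ?_⟩
  intro s hs
  have hex : ∀ x : (sᶜ : Set (Cp X)), ∃ V : Set (Cp X), IsOpen V ∧ x.1 ∈ V ∧ closure V ⊆ sᶜ := by
    intro x
    obtain ⟨W, hW, hWc, hWs⟩ := exists_mem_nhds_isClosed_subset (hs.isOpen_compl.mem_nhds x.2)
    refine ⟨interior W, isOpen_interior, mem_interior_iff_mem_nhds.mpr hW, ?_⟩
    exact (closure_minimal interior_subset hWc).trans hWs
  choose V hV1 hV2 hV3 using hex
  obtain ⟨r, hr, hcov⟩ := (HereditarilyLindelofSpace.isLindelof (sᶜ : Set (Cp X))).elim_countable_subcover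
    V hV1 (fun x hx => mem_iUnion.mpr ⟨⟨x, hx⟩, hV2 ⟨x, hx⟩⟩)
  have heq : s = ⋂ i ∈ r, (closure (V i))ᶜ := by
    ext x
    simp only [mem_iInter]
    constructor
    · intro hx i _ hxi
      exact hV3 i hxi hx
    · intro hx
      by_contra hxs
      obtain ⟨i, hi, hxi⟩ := mem_iUnion₂.mp (hcov (mem_compl hxs))
      exact hx i hi (subset_closure hxi)
  rw [heq]
  exact IsGδ.biInter hr fun i _ => isClosed_closure.isOpen_compl.isGδ

end Pool.Agent.H774R4
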