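import Mathlib
import Pool.Agent.H774R4.Core
import Pool.Agent.Helper47.LP.Dep

set_option autoImplicit false

open Set Topology Filter

namespace Pool.Agent.H774R4

open Pool.Agent.Helper639

def z1 : KK := ⟨(1, 0), Or.inl ⟨zero_le_one, le_rfl, rfl⟩⟩
def z2 : KK := ⟨(0, 1), Or.inr (Or.inl ⟨rfl, zero_le_one, le_rfl⟩)⟩
def z3 : KK := ⟨(-1, -1), Or.inr (Or.inr ⟨rfl, le_rfl, by norm_num⟩)⟩

variable {w : K.Om → K.Om → ℕ} {q : ℕ → C(KK, KK)} {r : K.Om → ℝ}

theorem bump {X : Type} [TopologicalSpace X] [T35Space X] (p : X) (F : Finset X) (hp : p ∉ F) :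
    ∃ χ : X → ℝ, Continuous χ ∧ χ p = 0 ∧ (∀ x, 0 ≤ χ x) ∧ ∀ x ∈ F, χ x = 1 := by
  obtain ⟨f, hf, hf0, hf1⟩ := CompletelyRegularSpace.completely_regular p (F : Set X)
    F.finite_toSet.isClosed (by simpa using hp)
  refine ⟨fun x => (f x : ℝ), continuous_subtype_val.comp hf, ?_, ?_, ?_⟩
  · simp [hf0]
  · intro x
    exact (f x).2.1
  · intro x hx
    have := hf1 (Finset.mem_coe.mpr hx)
    simp at this
    simp [this]

def ee {X : Type} [TopologicalSpace X] (p : Cp X × Cp X) : X ⊕ X → ℝ := Sum.elim p.1.1 p.2.1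

theorem ee_eq {X : Type} [TopologicalSpace X] :
    (ee : Cp X × Cp X → X ⊕ X → ℝ) =
      (Homeomorph.sumArrowHomeomorphProdArrow (ι := X) (ι' := X) (X := ℝ)).symm ∘
        (Prod.map (Subtype.val : Cp X → (X → ℝ)) (Subtype.val : Cp X → (X → ℝ))) := by
  funext p
  rfl

theorem ee_inducing {X : Type} [TopologicalSpace X] : IsInducing (ee : Cp X × Cp X → X ⊕ X → ℝ) := by
  rw [ee_eq]
  exact (Homeomorph.isInducing _).comp (IsInducing.subtypeVal.prodMap IsInducing.subtypeVal)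

theorem cp_dense {X : Type} [TopologicalSpace X] [T35Space X] :
    DenseRange (Subtype.val : Cp X → (X → ℝ)) := by
  classical
  intro y
  rw [mem_closure_iff]
  intro U hU hyU
  rw [isOpen_pi_iff] at hU
  obtain ⟨F, u, hu, huU⟩ := hU y hyU
  have h1 : ∀ p : X, ∃ χ : X → ℝ, Continuous χ ∧ (∀ x ∈ F, x ≠ p → χ x = 0) ∧ χ p = 1 := by
    intro p
    obtain ⟨χ, h1, h2, -, h3⟩ := bump p (F.erase p) (Finset.notMem_erase p F)
    refine ⟨fun x => 1 - χ x, continuous_const.sub h1, fun x hx hxp => ?_, by simp [h2]⟩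
    simp [h3 x (Finset.mem_erase.mpr ⟨hxp, hx⟩)]
  choose χ hχ1 hχ2 hχ3 using h1
  let g : X → ℝ := fun x => ∑ p ∈ F, y p * χ p x
  have hg : Continuous g := continuous_finset_sum _ fun p _ => continuous_const.mul (hχ1 p)
  refine ⟨g, huU ?_, ⟨⟨g, hg⟩, rfl⟩⟩
  intro x hx
  have : g x = y x := by
    simp only [g]
    rw [Finset.sum_eq_single x]
    · rw [hχ3, mul_one]
    · intro p _ hne
      rw [hχ2 p x hx hne.symm, mul_zero]
    · intro h
      exact absurd hx h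
  rw [this]
  exact (hu x hx).2

theorem ee_dense {X : Type} [TopologicalSpace X] [T35Space X] :
    DenseRange (ee : Cp X × Cp X → X ⊕ X → ℝ) := by
  rw [ee_eq]
  exact (Homeomorph.surjective _).denseRange.comp (cp_dense.prodMap cp_dense) (Homeomorph.continuous _)

theorem not_pn (hr : Function.Injective r) (hq : ∀ n, Good (q n)) :
    ¬ (NormalSpace (Cp (Sp w q r) × Cp (Sp w q r)) ∧
      ∀ s : Set (Cp (Sp w q r) × Cp (Sp w q r)), IsClosed s → IsGδ s) := by
  classical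
  rintro ⟨hN, hG⟩
  haveI : T35Space (Sp w q r) := t35 w q r hr
  let U : Set (Cp (Sp w q r) × Cp (Sp w q r)) :=
    ⋃ β : K.Om, {p | 0 < p.1.1 (inc w q r β z1) ∧ 0 < p.2.1 (inc w q r β z2) ∧ p.1.1 (inc w q r β z3) < 0}
  have hev : ∀ x : Sp w q r, Continuous fun g : Cp (Sp w q r) => g.1 x := fun x =>
    (continuous_apply x).comp continuous_subtype_val
  have hU : IsOpen U := by
    refine isOpen_iUnion fun β => ?_
    refine IsOpen.inter (isOpen_lt continuous_const ((hev _).comp continuous_fst)) (IsOpen.inter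
      (isOpen_lt continuous_const ((hev _).comp continuous_snd))
      (isOpen_lt ((hev _).comp continuous_fst) continuous_const))
  obtain ⟨A, hA, hdep⟩ := Helper47.LP.closed_dep hN hG ee ee_inducing ee_dense Uᶜ hU.isClosed_compl
  obtain ⟨a, ha⟩ := ubd ((fun t : Sp w q r ⊕ Sp w q r => (Sum.elim id id t).1) '' A) (hA.image _)
  let e1 : Cp (Sp w q r) := ⟨fun x => (E w q r a x : ℝ × ℝ).1,
    continuous_fst.comp (continuous_subtype_val.comp (continuous_E w q r a))⟩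
  let e2 : Cp (Sp w q r) := ⟨fun x => (E w q r a x : ℝ × ℝ).2,
    continuous_snd.comp (continuous_subtype_val.comp (continuous_E w q r a))⟩
  have hz : ∀ s : KK, E w q r a (inc w q r a s) = s := fun s => EC_self w q a s
  have hmem : (e1, e2) ∈ U := by
    refine mem_iUnion.mpr ⟨a, ?_, ?_, ?_⟩
    · change 0 < (E w q r a (inc w q r a z1) : ℝ × ℝ).1
      rw [hz]; norm_num [z1]
    · change 0 < (E w q r a (inc w q r a z2) : ℝ × ℝ).2
      rw [hz]; norm_num [z2]
    · change (E w q r a (inc w q r a z3) : ℝ × ℝ).1 < 0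
      rw [hz]; norm_num [z3]
  obtain ⟨G, ε, hGA, hε, hG2⟩ := hdep (e1, e2) (by simpa using hmem)
  obtain ⟨χ, hχ1, hχ2, hχ3, hχ4⟩ := bump (inc w q r a z1) (G.image fun t => Sum.elim id id t) (by
    intro h
    obtain ⟨t, ht, hta⟩ := Finset.mem_image.mp h
    have h1 := ha _ ⟨t, hGA ht, rfl⟩
    simp only [hta] at h1
    exact lt_irrefl _ h1)
  have hs := hG2 (⟨fun x => χ x * e1.1 x, hχ1.mul e1.2⟩, ⟨fun x => χ x * e2.1 x, hχ1.mul e2.2⟩) (by
    intro t ht
    have h1 : χ (Sum.elim id id t) = 1 := hχ4 _ (Finset.mem_image.mpr ⟨t, ht, rfl⟩)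
    rcases t with t | t
    · simp only [Sum.elim_inl, id] at h1
      simp [ee, h1, hε]
    · simp only [Sum.elim_inr, id] at h1
      simp [ee, h1, hε])
  have hs2 : ((⟨fun x => χ x * e1.1 x, hχ1.mul e1.2⟩, ⟨fun x => χ x * e2.1 x, hχ1.mul e2.2⟩) :
      Cp (Sp w q r) × Cp (Sp w q r)) ∈ U := by
    simpa using hs
  obtain ⟨β, hβ1, hβ2, hβ3⟩ := mem_iUnion.mp hs2
  simp only at hβ1 hβ2 hβ3
  by_cases hβ : β = a
  · subst hβ
    rw [hχ2, zero_mul] at hβ1
    exact lt_irrefl _ hβ1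
  · obtain ⟨m, hm⟩ := EC_good w q hq (ξ := a) (α := β) hβ
    have h1 : 0 < e1.1 (inc w q r β z1) := (pos_iff_pos_of_mul_pos hβ1).mp
      (lt_of_le_of_ne (hχ3 _) (fun h => by rw [← h, zero_mul] at hβ1; exact lt_irrefl _ hβ1))
    have h2 : 0 < e2.1 (inc w q r β z2) := (pos_iff_pos_of_mul_pos hβ2).mp
      (lt_of_le_of_ne (hχ3 _) (fun h => by rw [← h, zero_mul] at hβ2; exact lt_irrefl _ hβ2))
    have h3 : e1.1 (inc w q r β z3) < 0 := by
      by_contra h
      exact absurd (mul_nonneg (hχ3 _) (not_lt.mp h)) (not_le.mpr hβ3)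
    have k1 := hm z1
    have k2 := hm z2
    have k3 := hm z3
    have h1' : 0 < ((EC w q a β z1 : KK) : ℝ × ℝ).1 := h1
    have h2' : 0 < ((EC w q a β z2 : KK) : ℝ × ℝ).2 := h2
    have h3' : ((EC w q a β z3 : KK) : ℝ × ℝ).1 < 0 := h3
    fin_cases m
    · exact absurd k1 (not_le.mpr h1')
    · exact absurd k2 (not_le.mpr h2')
    · exact absurd k3 (not_le.mpr h3')

end Pool.Agent.H774R4
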