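import Mathlib
import Pool.Agent.H774R4.Neg
import Pool.Agent.H774R4.HL

set_option autoImplicit false

open Set Topology Filter Cardinal

namespace Pool.Agent.H774R4

open Pool.Agent.Helper639

variable {w : K.Om → K.Om → ℕ} {q : ℕ → C(KK, KK)} {r : K.Om → ℝ}

theorem core (hw : HFD w) (hq : ∀ n, Good (q n))
    (hqd : ∀ κ : C(KK, KK), Good κ → ∀ η > 0, ∃ n, ∀ s, dist (q n s) (κ s) < η)
    (f : K.Om → Cp (Sp w q r)) (B : K.Om → Finset (Sp w q r)) (ε : K.Om → ℝ) (hε : ∀ δ, 0 < ε δ) :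
    ∃ δ' δ, δ' < δ ∧ ∀ x ∈ B δ', |(f δ).1 x - (f δ').1 x| < ε δ' := by
  classical
  have h1 : ∃ c : ℕ × ℕ, ¬ {δ : K.Om | (B δ).card = c.1 ∧ 1 / ((c.2 : ℝ) + 1) < ε δ}.Countable := by
    by_contra hcon
    push Not at hcon
    apply K.Om_unc
    refine (countable_iUnion hcon).mono fun δ _ => ?_
    obtain ⟨m, hm⟩ := exists_nat_one_div_lt (hε δ)
    exact mem_iUnion.mpr ⟨((B δ).card, m), rfl, hm⟩
  obtain ⟨⟨n, m⟩, hS⟩ := h1
  obtain ⟨b, -⟩ := ubd ∅ countable_empty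
  let x : K.Om → Fin n → Sp w q r := fun δ i =>
    if h : (B δ).card = n then (((B δ).equivFinOfCardEq h).symm i : Sp w q r) else inc w q r b zK
  obtain ⟨δ', hδ', δ, -, hlt, hx⟩ := core1 hw hq hqd _ hS x f (1 / ((m : ℝ) + 1)) (by positivity)
  refine ⟨δ', δ, hlt, fun y hy => ?_⟩
  have hc : (B δ').card = n := hδ'.1
  have h2 := hx ((B δ').equivFinOfCardEq hc ⟨y, hy⟩)
  have h3 : x δ' ((B δ').equivFinOfCardEq hc ⟨y, hy⟩) = y := by
    simp [x, hc]
  rw [h3] at h2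
  exact h2.trans hδ'.2

theorem exists_q : ∃ q : ℕ → C(KK, KK), (∀ n, Good (q n)) ∧
    ∀ κ : C(KK, KK), Good κ → ∀ η > 0, ∃ n, ∀ s, dist (q n s) (κ s) < η := by
  haveI : Nonempty {κ : C(KK, KK) // Good κ} :=
    ⟨⟨ContinuousMap.const KK zK, 0, fun s => by simp [JJ, zK]⟩⟩
  refine ⟨fun n => (TopologicalSpace.denseSeq {κ : C(KK, KK) // Good κ} n).1, fun n =>
    (TopologicalSpace.denseSeq {κ : C(KK, KK) // Good κ} n).2, fun κ hκ η hη => ?_⟩
  obtain ⟨n, hn⟩ := (TopologicalSpace.denseRange_denseSeq {κ : C(KK, KK) // Good κ}).exists_dist_lt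
    ⟨κ, hκ⟩ hη
  refine ⟨n, fun s => ?_⟩
  refine lt_of_le_of_lt (ContinuousMap.dist_apply_le_dist s) ?_
  rw [dist_comm]
  exact hn

theorem exists_r : ∃ r : K.Om → ℝ, Function.Injective r := by
  have h : #K.Om ≤ #ℝ := by
    rw [K.mk_Om, Cardinal.mk_real]
    exact Cardinal.aleph_one_le_continuum
  obtain ⟨e⟩ := h
  exact ⟨e, e.injective⟩

theorem spread (hq : ∀ n, Good (q n)) :
    ∃ D : Set (Cp (Sp w q r) × Cp (Sp w q r)), ¬ D.Countable ∧ DiscreteTopology D := by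
  classical
  let e1 : K.Om → Cp (Sp w q r) := fun a => ⟨fun x => (E w q r a x : ℝ × ℝ).1,
    continuous_fst.comp (continuous_subtype_val.comp (continuous_E w q r a))⟩
  let e2 : K.Om → Cp (Sp w q r) := fun a => ⟨fun x => (E w q r a x : ℝ × ℝ).2,
    continuous_snd.comp (continuous_subtype_val.comp (continuous_E w q r a))⟩
  let d : K.Om → Cp (Sp w q r) × Cp (Sp w q r) := fun a => (e1 a, e2 a)
  let U : K.Om → Set (Cp (Sp w q r) × Cp (Sp w q r)) := fun β =>
    {p | 0 < p.1.1 (inc w q r β z1) ∧ 0 < p.2.1 (inc w q r β z2) ∧ p.1.1 (inc w q r β z3) < 0}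
  have hev : ∀ x : Sp w q r, Continuous fun g : Cp (Sp w q r) => g.1 x := fun x =>
    (continuous_apply x).comp continuous_subtype_val
  have hU : ∀ β, IsOpen (U β) := fun β => IsOpen.inter
      (isOpen_lt continuous_const ((hev _).comp continuous_fst)) (IsOpen.inter
      (isOpen_lt continuous_const ((hev _).comp continuous_snd))
      (isOpen_lt ((hev _).comp continuous_fst) continuous_const))
  have hz : ∀ a (s : KK), E w q r a (inc w q r a s) = s := fun a s => EC_self w q a s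
  have hmem : ∀ a, d a ∈ U a := by
    intro a
    refine ⟨?_, ?_, ?_⟩
    · change 0 < (E w q r a (inc w q r a z1) : ℝ × ℝ).1
      rw [hz]; norm_num [z1]
    · change 0 < (E w q r a (inc w q r a z2) : ℝ × ℝ).2
      rw [hz]; norm_num [z2]
    · change (E w q r a (inc w q r a z3) : ℝ × ℝ).1 < 0
      rw [hz]; norm_num [z3]
  have hne : ∀ a β, β ≠ a → d a ∉ U β := by
    rintro a β hβ ⟨h1, h2, h3⟩
    obtain ⟨m, hm⟩ := EC_good w q hq (ξ := a) (α := β) hβ
    have h1' : 0 < ((EC w q a β z1 : KK) : ℝ × ℝ).1 := h1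
    have h2' : 0 < ((EC w q a β z2 : KK) : ℝ × ℝ).2 := h2
    have h3' : ((EC w q a β z3 : KK) : ℝ × ℝ).1 < 0 := h3
    have k1 := hm z1
    have k2 := hm z2
    have k3 := hm z3
    fin_cases m
    · exact absurd k1 (not_le.mpr h1')
    · exact absurd k2 (not_le.mpr h2')
    · exact absurd k3 (not_le.mpr h3')
  have hinj : Function.Injective d := by
    intro a b hab
    by_contra hne'
    exact hne a b (Ne.symm hne') (hab ▸ hmem b)
  refine ⟨range d, fun hc => ?_, ?_⟩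
  · apply K.Om_unc
    have := hc.preimage hinj
    rwa [preimage_range] at this
  · rw [discreteTopology_subtype_iff']
    rintro _ ⟨a, rfl⟩
    refine ⟨U a, hU a, ?_⟩
    ext p
    constructor
    · rintro ⟨hp, b, rfl⟩
      by_contra h
      exact hne b a (fun hab => h (by rw [hab]; rfl)) hp
    · rintro rfl
      exact ⟨hmem a, mem_range_self a⟩

theorem main (hCH : (𝔠 : Cardinal.{0}) = ℵ₁) :
    ∃ (X : Type) (_ : TopologicalSpace X), T35Space X ∧
      (HereditarilyLindelofSpace (Cp X) ∧ NormalSpace (Cp X) ∧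
        ∀ s : Set (Cp X), IsClosed s → IsGδ s) ∧
      ¬ (NormalSpace (Cp X × Cp X) ∧ ∀ s : Set (Cp X × Cp X), IsClosed s → IsGδ s) ∧
      ∃ D : Set (Cp X × Cp X), ¬ D.Countable ∧ DiscreteTopology D := by
  obtain ⟨w, -, hw⟩ := P.exists_mat hCH
  obtain ⟨q, hq, hqd⟩ := exists_q
  obtain ⟨r, hr⟩ := exists_r
  refine ⟨Sp w q r, inferInstance, t35 w q r hr, ?_, not_pn hr hq, spread hq⟩
  exact taskHL (Sp w q r) fun f B ε hε => core hw hq hqd f B ε hε

end Pool.Agent.H774R4
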